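import Pool.Agent.Lib.MP_3a897b_coS.OneLarge

/-!
# Groups of rank `r` and of order at most a constant times `h ^ r`
-/

namespace Pool.Agent.Lib.MP_3a897b_coS

open Pool.Agent.Lib.MP_3a897b_co

variable {G : Type*} [AddCommGroup G]

/-- `u` is a basis of `ℤ ^ m` (seen in `G`), and for all `ν` the lattice spanned by the `ν k • u k`
together with the box with sides `ν k • d k` covers the space -/
def Tile (G : Type*) [AddCommGroup G] {m : ℕ} (u : Fin m → Fin m → ℤ) (d : Fin m → Fin m → ℝ) :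
    Prop :=
  (∀ e : Fin m → G, ∃ x : Fin m → G, ∀ k, ∑ j, u k j • x j = e k) ∧
  ∀ ν : Fin m → ℝ, (∀ k, 0 < ν k) → ∀ v : Fin m → ℝ, ∃ (z : Fin m → ℤ) (t : Fin m → ℝ),
    (∀ k, |t k| ≤ ν k / 2) ∧ ∀ j, v j = ∑ k, (z k * ν k * u k j + t k * d k j)

theorem Tile.perm {m : ℕ} {u : Fin m → Fin m → ℤ} {d : Fin m → Fin m → ℝ} (H : Tile G u d)
    (σ : Equiv.Perm (Fin m)) : Tile G (fun k => u (σ k)) (fun k => d (σ k)) := by
  obtain ⟨H1, H2⟩ := H
  refine ⟨fun e => ?_, fun ν hν v => ?_⟩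
  · obtain ⟨x, hx⟩ := H1 (fun k => e (σ.symm k))
    refine ⟨x, fun k => ?_⟩
    rw [hx (σ k), Equiv.symm_apply_apply]
  · obtain ⟨z, t, h1, h2⟩ := H2 (fun k => ν (σ.symm k)) (fun k => hν _) v
    refine ⟨fun k => z (σ k), fun k => t (σ k), fun k => ?_, fun j => ?_⟩
    · have := h1 (σ k)
      rwa [Equiv.symm_apply_apply] at this
    · rw [h2 j, ← Equiv.sum_comp σ]
      refine Finset.sum_congr rfl fun k _ => ?_
      rw [Equiv.symm_apply_apply]

theorem tile_succ {r : ℕ} (β : Fin (r + 2) → ℝ) (hβ : ∀ k, 0 < β k) (h0 : 1 ≤ β 0) {S : ℝ}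
    (ih : ∃ (u : Fin (r + 1) → Fin (r + 1) → ℤ) (d : Fin (r + 1) → Fin (r + 1) → ℝ), Tile G u d ∧
      ∑ k, (∑ j, |d k j|) / (Fin.cons (β 0 * β 1) (fun k : Fin r => β k.succ.succ) :
        Fin (r + 1) → ℝ) k ≤ S) :
    ∃ (u : Fin (r + 2) → Fin (r + 2) → ℤ) (d : Fin (r + 2) → Fin (r + 2) → ℝ), Tile G u d ∧
      ∑ k, (∑ j, |d k j|) / β k ≤ S + (r + 3) := by
  obtain ⟨u, d, ⟨H1, H2⟩, H3⟩ := ih
  have hβ0 := hβ 0
  have hβ1 := hβ 1
  let w : Fin (r + 1) → ℤ := fun j => round (d 0 j / β 1)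
  have hw : ∀ j, |d 0 j / β 1 - w j| ≤ 1 / 2 := fun j => abs_sub_round _
  let a : Fin (r + 1) → ℝ := Fin.cons (β 1) (fun _ => 0)
  refine ⟨Fin.cons (Fin.cons 1 w) (fun k => Fin.cons 0 (u k)),
    Fin.cons (Fin.cons 1 (fun j => (w j : ℝ)))
      (fun k => Fin.cons (-a k) (fun j => d k j - a k * w j)), ⟨fun e => ?_, fun ν hν v => ?_⟩, ?_⟩
  · obtain ⟨x, hx⟩ := H1 (fun k => e k.succ)
    refine ⟨Fin.cons (e 0 - ∑ j, w j • x j) x, fun k => ?_⟩
    refine Fin.cases ?_ (fun k => ?_) k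
    · rw [Fin.sum_univ_succ]
      simp only [Fin.cons_zero, Fin.cons_succ, one_smul]
      abel
    · rw [Fin.sum_univ_succ]
      simp only [Fin.cons_zero, Fin.cons_succ, zero_smul, zero_add]
      exact hx k
  · obtain ⟨z, t, h1, h2⟩ := H2 (fun k => ν k.succ) (fun k => hν _)
      (fun j => v j.succ - v 0 * w j)
    have hν0 := hν 0
    obtain ⟨y, hy⟩ : ∃ y, y = v 0 + ∑ k, t k * a k := ⟨_, rfl⟩
    refine ⟨Fin.cons (round (y / ν 0)) z, Fin.cons (y - round (y / ν 0) * ν 0) t, fun k => ?_,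
      fun j => ?_⟩
    · refine Fin.cases ?_ (fun k => ?_) k
      · rw [Fin.cons_zero]
        have h3 : y - round (y / ν 0) * ν 0 = (y / ν 0 - round (y / ν 0)) * ν 0 := by
          field_simp
        rw [h3, abs_mul, abs_of_pos hν0]
        have h4 := abs_sub_round (y / ν 0)
        nlinarith
      · rw [Fin.cons_succ]
        exact h1 k
    · refine Fin.cases ?_ (fun j => ?_) j
      · rw [Fin.sum_univ_succ]
        simp only [Fin.cons_zero, Fin.cons_succ]
        have h3 : ∑ k, (z k * ν k.succ * ((0 : ℤ) : ℝ) + t k * -a k) = -∑ k, t k * a k := by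
          rw [← Finset.sum_neg_distrib]
          refine Finset.sum_congr rfl fun k _ => ?_
          push_cast
          ring
        rw [h3]
        push_cast
        linarith
      · rw [Fin.sum_univ_succ]
        simp only [Fin.cons_zero, Fin.cons_succ]
        have h3 : ∑ k, (z k * ν k.succ * (u k j : ℝ) + t k * (d k j - a k * w j)) =
            ∑ k, (z k * ν k.succ * (u k j : ℝ) + t k * d k j) - (∑ k, t k * a k) * w j := by
          rw [Finset.sum_mul, ← Finset.sum_sub_distrib]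
          refine Finset.sum_congr rfl fun k _ => ?_
          ring
        rw [h3, ← h2 j]
        have h4 : ∑ k, t k * a k = y - v 0 := by linarith
        rw [h4]
        ring
  · have hsplit : ∀ F : Fin (r + 2) → ℝ,
        ∑ k, F k = F 0 + (F (Fin.succ 0) + ∑ k : Fin r, F k.succ.succ) := by
      intro F
      rw [Fin.sum_univ_succ, Fin.sum_univ_succ]
    rw [hsplit]
    rw [Fin.sum_univ_succ] at H3
    simp only [Fin.cons_zero, Fin.cons_succ] at H3 ⊢
    have e1 : (Fin.succ 0 : Fin (r + 2)) = 1 := rfl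
    rw [e1]
    have hA : ∀ k : Fin r, ∑ j, |(Fin.cons (-a k.succ) (fun j => d k.succ j - a k.succ * w j) :
        Fin (r + 2) → ℝ) j| = ∑ j, |d k.succ j| := by
      intro k
      rw [Fin.sum_univ_succ]
      simp [a]
    have hB : ∑ j, |(Fin.cons (-a 0) (fun j => d 0 j - a 0 * w j) : Fin (r + 2) → ℝ) j| / β 1 ≤
        1 + (r + 1) * (1 / 2) := by
      rw [Fin.sum_univ_succ]
      simp only [Fin.cons_zero, Fin.cons_succ, a]
      have h3 : |(-β 1)| / β 1 = 1 := by
        rw [abs_neg, abs_of_pos hβ1, div_self hβ1.ne']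
      rw [h3]
      have h4 : ∑ j : Fin (r + 1), |d 0 j - β 1 * w j| / β 1 ≤ ∑ j : Fin (r + 1), (1 / 2 : ℝ) := by
        refine Finset.sum_le_sum fun j _ => ?_
        have h5 : |d 0 j - β 1 * w j| / β 1 = |d 0 j / β 1 - w j| := by
          rw [← abs_of_pos hβ1, ← abs_div, abs_of_pos hβ1, sub_div, mul_div_cancel_left₀ _ hβ1.ne']
        rw [h5]
        exact hw j
      rw [Finset.sum_const, Finset.card_univ, Fintype.card_fin, nsmul_eq_mul] at h4
      push_cast at h4
      linarith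
    have hC : ∑ j, |(Fin.cons 1 (fun j => (w j : ℝ)) : Fin (r + 2) → ℝ) j| ≤
        1 + ((∑ j, |d 0 j|) / β 1 + (r + 1) * (1 / 2)) := by
      rw [Fin.sum_univ_succ]
      simp only [Fin.cons_zero, Fin.cons_succ, abs_one]
      have h4 : ∑ j : Fin (r + 1), |(w j : ℝ)| ≤
          ∑ j : Fin (r + 1), (|d 0 j| / β 1 + 1 / 2 : ℝ) := by
        refine Finset.sum_le_sum fun j _ => ?_
        have h5 := hw j
        have h6 : |(w j : ℝ)| ≤ |d 0 j / β 1| + |d 0 j / β 1 - w j| := by
          have := abs_sub_abs_le_abs_sub (w j : ℝ) (d 0 j / β 1)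
          rw [abs_sub_comm] at this
          linarith
        rw [abs_div, abs_of_pos hβ1] at h6
        linarith
      rw [Finset.sum_add_distrib, Finset.sum_const, Finset.card_univ, Fintype.card_fin,
        nsmul_eq_mul, ← Finset.sum_div] at h4
      push_cast at h4
      linarith
    simp only [hA]
    rw [← Finset.sum_div] at hB
    have hD : (∑ j, |(Fin.cons 1 (fun j => (w j : ℝ)) : Fin (r + 2) → ℝ) j|) / β 0 ≤
        (∑ j, |d 0 j|) / (β 0 * β 1) + (1 + (r + 1) * (1 / 2)) := by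
      rw [div_le_iff₀ hβ0]
      have h7 : ((∑ j, |d 0 j|) / (β 0 * β 1) + (1 + (r + 1) * (1 / 2))) * β 0 =
          (∑ j, |d 0 j|) / β 1 + (1 + (r + 1) * (1 / 2)) * β 0 := by
        field_simp
      rw [h7]
      have h8 : (0 : ℝ) ≤ 1 + (r + 1) * (1 / 2) := by positivity
      nlinarith
    linarith

theorem exists_tile : ∀ (r : ℕ) (β : Fin (r + 1) → ℝ), (∀ k, 0 < β k) → 1 ≤ ∏ k, β k →
    ∃ (u : Fin (r + 1) → Fin (r + 1) → ℤ) (d : Fin (r + 1) → Fin (r + 1) → ℝ), Tile G u d ∧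
      ∑ k, (∑ j, |d k j|) / β k ≤ (((r : ℝ) + 1) ^ 2 + 3 * ((r : ℝ) + 1) - 2) / 2 := by
  intro r
  induction r with
  | zero =>
    intro β hβ hp
    refine ⟨fun _ _ => 1, fun _ _ => 1, ⟨fun e => ⟨e, fun k => ?_⟩, fun ν hν v => ?_⟩, ?_⟩
    · rw [show k = 0 from Fin.ext (by omega), Fin.sum_univ_one, one_smul]
    · have hν0 := hν 0
      refine ⟨fun _ => round (v 0 / ν 0), fun _ => v 0 - round (v 0 / ν 0) * ν 0, fun k => ?_,
        fun j => ?_⟩
      · rw [show k = 0 from Fin.ext (by omega)]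
        have h3 : v 0 - round (v 0 / ν 0) * ν 0 = (v 0 / ν 0 - round (v 0 / ν 0)) * ν 0 := by
          field_simp
        rw [h3, abs_mul, abs_of_pos hν0]
        have h4 := abs_sub_round (v 0 / ν 0)
        nlinarith
      · rw [show j = 0 from Fin.ext (by omega), Fin.sum_univ_one]
        push_cast
        ring
    · rw [Fin.prod_univ_one] at hp
      rw [Fin.sum_univ_one, Fin.sum_univ_one, abs_one]
      have h0 := hβ 0
      rw [div_le_iff₀ h0]
      push_cast
      nlinarith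
  | succ r ih =>
    have key : ∀ β : Fin (r + 2) → ℝ, (∀ k, 0 < β k) → 1 ≤ β 0 → 1 ≤ ∏ k, β k →
        ∃ (u : Fin (r + 2) → Fin (r + 2) → ℤ) (d : Fin (r + 2) → Fin (r + 2) → ℝ), Tile G u d ∧
          ∑ k, (∑ j, |d k j|) / β k ≤
            (((r : ℝ) + 1 + 1) ^ 2 + 3 * ((r : ℝ) + 1 + 1) - 2) / 2 := by
      intro β hβ h0 hp
      have h1 := ih (Fin.cons (β 0 * β 1) (fun k : Fin r => β k.succ.succ)) (fun k => ?_) ?_
      · obtain ⟨u, d, h2, h3⟩ := tile_succ (G := G) β hβ h0 h1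
        refine ⟨u, d, h2, h3.trans (le_of_eq ?_)⟩
        ring
      · refine Fin.cases ?_ (fun k => ?_) k
        · rw [Fin.cons_zero]
          exact mul_pos (hβ 0) (hβ 1)
        · rw [Fin.cons_succ]
          exact hβ _
      · rw [Fin.prod_univ_succ]
        simp only [Fin.cons_zero, Fin.cons_succ]
        rw [Fin.prod_univ_succ, Fin.prod_univ_succ, ← mul_assoc] at hp
        exact hp
    intro β hβ hp
    obtain ⟨i, hi⟩ : ∃ i, 1 ≤ β i := by
      by_contra hc
      push Not at hc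
      have h1 : ∏ k, β k < ∏ k : Fin (r + 2), (1 : ℝ) :=
        Finset.prod_lt_prod_of_nonempty (fun k _ => hβ k) (fun k _ => hc k)
          Finset.univ_nonempty
      rw [Finset.prod_const_one] at h1
      linarith
    obtain ⟨u, d, h2, h3⟩ := key (fun k => β (Equiv.swap 0 i k)) (fun k => hβ _)
      (by rw [Equiv.swap_apply_left]; exact hi)
      (by rw [Equiv.prod_comp (Equiv.swap 0 i) β]; exact hp)
    refine ⟨fun k => u (Equiv.swap 0 i k), fun k => d (Equiv.swap 0 i k), h2.perm _, ?_⟩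
    push_cast
    refine le_trans (le_of_eq ?_) h3
    rw [← Equiv.sum_comp (Equiv.swap 0 i)]
    refine Finset.sum_congr rfl fun k _ => ?_
    rw [Equiv.swap_apply_self]

/-- `s` generators of a group of rank at most `s`, with orders whose product is the order of
the group -/
theorem gens_le [Finite G] {s : ℕ} (hr : AddGroup.rank G ≤ s) :
    ∃ (e : Fin s → G) (n : Fin s → ℕ), (∀ i, 1 ≤ n i) ∧ ∏ i, n i = Nat.card G ∧
      (∀ i, (n i : ℤ) • e i = 0) ∧ ∀ g : G, ∃ k : Fin s → ℤ, ∑ i, k i • e i = g := by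
  obtain ⟨d, rfl⟩ := Nat.exists_eq_add_of_le hr
  obtain ⟨e, n, h1, h2, h3, h4⟩ := gens (G := G)
  refine ⟨Fin.append e (fun _ : Fin d => 0), Fin.append n (fun _ : Fin d => 1), fun i => ?_, ?_,
    fun i => ?_, fun g => ?_⟩
  · refine Fin.addCases (fun i => ?_) (fun i => ?_) i
    · rw [Fin.append_left]
      have := h1 i
      omega
    · rw [Fin.append_right]
  · rw [Fin.prod_univ_add]
    simp only [Fin.append_left, Fin.append_right, Finset.prod_const_one, mul_one]
    exact h2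
  · refine Fin.addCases (fun i => ?_) (fun i => ?_) i
    · rw [Fin.append_left, Fin.append_left]
      exact h3 i
    · rw [Fin.append_right, Fin.append_right, smul_zero]
  · obtain ⟨k, hk⟩ := h4 g
    refine ⟨Fin.append k (fun _ : Fin d => 0), ?_⟩
    rw [Fin.sum_univ_add]
    simp only [Fin.append_left, Fin.append_right, smul_zero, Finset.sum_const_zero, add_zero]
    exact hk

/-- all groups of rank at most `s` and of order at most a constant times `h ^ s` -/
theorem phiPM_le_any [Finite G] {h s : ℕ} (hs : 1 ≤ s) (hr : AddGroup.rank G ≤ s)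
    (hN : (s ^ 2 + 3 * s - 2) ^ s * Nat.card G ≤ (4 * h) ^ s) : phiPM G h ≤ s + 1 := by
  have H := gens_le (G := G) hr
  obtain ⟨s, rfl⟩ : ∃ s', s = s' + 1 := ⟨s - 1, by omega⟩
  obtain ⟨e, n, h1, h2, h3, h4⟩ := H
  have hh : 0 < h := by
    rcases Nat.eq_zero_or_pos h with h0 | h0
    · exfalso
      subst h0
      rw [Nat.mul_zero, Nat.zero_pow (by omega)] at hN
      have h6 : 0 < (s + 1) ^ 2 := by positivity
      have h7 : 0 < (s + 1) ^ 2 + 3 * (s + 1) - 2 := by omega
      have h5 : 0 < ((s + 1) ^ 2 + 3 * (s + 1) - 2) ^ (s + 1) * Nat.card G :=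
        Nat.mul_pos (Nat.pow_pos h7) Nat.card_pos
      omega
    · exact h0
  have hh' : (0 : ℝ) < h := by exact_mod_cast hh
  have hS : (0 : ℝ) < ((s : ℝ) + 1) ^ 2 + 3 * ((s : ℝ) + 1) - 2 := by
    have : (0 : ℝ) ≤ s := Nat.cast_nonneg s
    nlinarith
  obtain ⟨S, hSd⟩ : ∃ S : ℝ, S = ((s : ℝ) + 1) ^ 2 + 3 * ((s : ℝ) + 1) - 2 := ⟨_, rfl⟩
  rw [← hSd] at hS
  have hn : ∀ k, (0 : ℝ) < n k := fun k => by
    have := h1 k
    exact_mod_cast (by omega : 0 < n k)
  have hcast : S ^ (s + 1) * (Nat.card G : ℝ) ≤ (4 * h) ^ (s + 1) := by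
    have h5 : (((s + 1) ^ 2 + 3 * (s + 1) - 2 : ℕ) : ℝ) = S := by
      rw [Nat.cast_sub (by nlinarith), hSd]
      push_cast
      ring
    rw [← h5]
    exact_mod_cast hN
  have hprod : (∏ k, (n k : ℝ)) = (Nat.card G : ℝ) := by exact_mod_cast h2
  have hcard : (0 : ℝ) < Nat.card G := by exact_mod_cast (Nat.card_pos (α := G))
  obtain ⟨u, d, ⟨H1, H2⟩, H3⟩ := exists_tile (G := G) s (fun k => (4 * h / S) / n k)
    (fun k => by have := hn k; positivity) (by
      rw [Finset.prod_div_distrib, Finset.prod_const, Finset.card_univ, Fintype.card_fin, hprod,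
        le_div_iff₀ hcard, one_mul, div_pow, le_div_iff₀ (by positivity)]
      linarith [mul_comm (S ^ (s + 1)) (Nat.card G : ℝ)])
  obtain ⟨x, hx⟩ := H1 e
  refine phiPM_le_of_family x fun g => ?_
  obtain ⟨κ, rfl⟩ := h4 g
  obtain ⟨z, t, h5, h6⟩ := H2 (fun k => (n k : ℝ)) hn (fun j => ∑ k, (κ k * u k j : ℝ))
  refine ⟨fun j => ∑ k, (κ k - z k * n k) * u k j, ?_, ?_⟩
  · have h7 : ∑ j, (∑ k, (κ k - z k * n k) * u k j) • x j =
        ∑ k, (κ k - z k * n k) • ∑ j, u k j • x j := by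
      simp only [Finset.sum_smul, Finset.smul_sum, mul_smul]
      rw [Finset.sum_comm]
    rw [h7]
    refine Finset.sum_congr rfl fun k _ => ?_
    rw [hx k, sub_smul, mul_smul, h3 k, smul_zero, sub_zero]
  · have h7 : ∀ j, ((∑ k, (κ k - z k * n k) * u k j : ℤ) : ℝ) = ∑ k, t k * d k j := by
      intro j
      have h8 := h6 j
      push_cast
      rw [Finset.sum_add_distrib] at h8
      have h9 : ∑ k, ((κ k : ℝ) - z k * n k) * u k j =
          ∑ k, (κ k * u k j : ℝ) - ∑ k, (z k * n k * u k j : ℝ) := by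
        rw [← Finset.sum_sub_distrib]
        refine Finset.sum_congr rfl fun k _ => ?_
        ring
      rw [h9, h8]
      ring
    have h8 : ((∑ j, |∑ k, (κ k - z k * n k) * u k j| : ℤ) : ℝ) ≤ h := by
      push_cast
      have h9 : ∀ j, |∑ k, ((κ k : ℝ) - z k * n k) * u k j| ≤ ∑ k, (n k / 2) * |d k j| := by
        intro j
        have h10 := h7 j
        push_cast at h10
        rw [h10]
        refine (Finset.abs_sum_le_sum_abs _ _).trans (Finset.sum_le_sum fun k _ => ?_)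
        rw [abs_mul]
        exact mul_le_mul_of_nonneg_right (h5 k) (abs_nonneg _)
      refine (Finset.sum_le_sum fun j _ => h9 j).trans ?_
      rw [Finset.sum_comm]
      have h11 : ∀ k, ∑ j, (n k : ℝ) / 2 * |d k j| =
          (2 * h / S) * ((∑ j, |d k j|) / ((4 * h / S) / n k)) := by
        intro k
        rw [← Finset.mul_sum]
        have := hn k
        field_simp
        ring
      rw [Finset.sum_congr rfl fun k _ => h11 k, ← Finset.mul_sum]
      have h12 : (0 : ℝ) ≤ 2 * h / S := by positivity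
      have h13 := mul_le_mul_of_nonneg_left H3 h12
      rw [← hSd] at h13
      have h14 : 2 * (h : ℝ) / S * (S / 2) = h := by
        field_simp
      linarith
    exact_mod_cast h8

/-- all groups of rank `r` and of order at most a constant times `h ^ r` -/
theorem any_rank [Finite G] {h : ℕ} (hh : 1 ≤ h) (hr : 1 ≤ AddGroup.rank G)
    (hN : (AddGroup.rank G ^ 2 + 3 * AddGroup.rank G - 2) ^ AddGroup.rank G * Nat.card G ≤
      (4 * h) ^ AddGroup.rank G) : phiPM G h = AddGroup.rank G + 1 :=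
  le_antisymm (phiPM_le_any hr le_rfl hN) (rank_lt_phiPM (G := G) h hh)

/-- the trivial upper bound for the order -/
theorem card_le_of_phiPM [Finite G] {h s : ℕ} (hh : 1 ≤ h) (hle : phiPM G h ≤ s + 1) :
    Nat.card G ≤ 2 * (2 * h + 1) ^ s := by
  classical
  have hlow := rank_lt_phiPM (G := G) h hh
  have hne : {m | ∃ A : Finset G, A.card = m ∧ signedSumset h A = Set.univ}.Nonempty := by
    by_contra hc
    rw [Set.not_nonempty_iff_eq_empty] at hc
    have h1 : phiPM G h = 0 := by rw [phiPM, hc, Nat.sInf_empty]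
    omega
  obtain ⟨A, hcard, hA⟩ := Nat.sInf_mem hne
  have hAc : A.card ≤ s + 1 := hcard.trans_le hle
  have hpos : 0 < A.card := by
    have : A.card = phiPM G h := hcard
    omega
  obtain ⟨t, ht⟩ : ∃ t, A.card = t + 1 := ⟨A.card - 1, by omega⟩
  let E : A ≃ Fin (t + 1) := Finset.equivFinOfCardEq ht
  -- the words
  let f : (Fin t → Fin (2 * h + 1)) × Bool → G := fun p =>
    ∑ i : Fin t, (((p.1 i : ℕ) : ℤ) - h) • (E.symm i.succ : G) +
      (if p.2 then (h : ℤ) - ∑ i : Fin t, |((p.1 i : ℕ) : ℤ) - h| else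
        -((h : ℤ) - ∑ i : Fin t, |((p.1 i : ℕ) : ℤ) - h|)) • (E.symm 0 : G)
  have hf : Function.Surjective f := by
    intro g
    have hg : g ∈ signedSumset h A := by rw [hA]; exact Set.mem_univ g
    obtain ⟨c, hc1, hc2⟩ := hg
    have h1 : ∀ F : G → ℤ, ∑ a ∈ A, F a = F (E.symm 0) + ∑ i : Fin t, F (E.symm i.succ) := by
      intro F
      rw [← Finset.sum_coe_sort, ← Equiv.sum_comp E.symm, Fin.sum_univ_succ]
    have h2 : ∑ a ∈ A, c a • a = c (E.symm 0) • (E.symm 0 : G) +
        ∑ i : Fin t, c (E.symm i.succ) • (E.symm i.succ : G) := by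
      rw [← Finset.sum_coe_sort, ← Equiv.sum_comp E.symm, Fin.sum_univ_succ]
    rw [h1] at hc1
    rw [h2] at hc2
    have h3 : ∀ i : Fin t, |c (E.symm i.succ)| ≤ h := by
      intro i
      have h4 : |c (E.symm i.succ)| ≤ ∑ i : Fin t, |c (E.symm i.succ)| :=
        Finset.single_le_sum (f := fun i : Fin t => |c (E.symm i.succ)|)
          (fun _ _ => abs_nonneg _) (Finset.mem_univ i)
      have h5 := abs_nonneg (c (E.symm 0))
      linarith
    refine ⟨(fun i => ⟨(c (E.symm i.succ) + h).toNat, ?_⟩, decide (0 ≤ c (E.symm 0))), ?_⟩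
    · have h4 := abs_le.mp (h3 i)
      omega
    · have h4 : ∀ i : Fin t, (((c (E.symm i.succ) + h).toNat : ℕ) : ℤ) - h =
          c (E.symm i.succ) := by
        intro i
        have h4 := abs_le.mp (h3 i)
        omega
      simp only [f, h4]
      have h5 : (h : ℤ) - ∑ i : Fin t, |c (E.symm i.succ)| = |c (E.symm 0)| := by linarith
      rw [h5, ← hc2, add_comm]
      congr 1
      by_cases h6 : 0 ≤ c (E.symm 0)
      · rw [if_pos (by simpa using h6), abs_of_nonneg h6]
      · rw [if_neg (by simpa using h6), abs_of_neg (by omega), neg_neg]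
  have h1 := Nat.card_le_card_of_surjective f hf
  have h2 : Nat.card ((Fin t → Fin (2 * h + 1)) × Bool) = (2 * h + 1) ^ t * 2 := by
    rw [Nat.card_eq_fintype_card]
    simp
  rw [h2] at h1
  calc Nat.card G ≤ (2 * h + 1) ^ t * 2 := h1
    _ = 2 * (2 * h + 1) ^ t := Nat.mul_comm _ _
    _ ≤ 2 * (2 * h + 1) ^ s :=
      Nat.mul_le_mul_left 2 (Nat.pow_le_pow_right (by omega) (by omega))

end Pool.Agent.Lib.MP_3a897b_coS
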