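import Pool.Agent.Lib.MP_3a897b_co.RankUpper

/-!
# Two elements whose words of length at most `h` fill a group of rank two
-/

namespace Pool.Agent.Lib.MP_3a897b_coS

open Pool.Agent.Lib.MP_3a897b_co

/-- every integer point is congruent to a point of the box of half side `a w / 2` -/
theorem box {a r m w V σ : ℤ} (ha : 0 < a) (hr : 0 < r) (hm : 0 < m) (hw : r * m = w)
    (hs : 0 < σ) (hsw : σ ≤ w) (hV : 0 < V) (hVw : V ≤ (m - 1) * σ + w) (u0 v0 : ℤ) :
    ∃ j i : ℤ, |2 * (u0 - a * r * j)| ≤ a * w ∧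
      |2 * (v0 + a * σ * j - a * V * i)| ≤ a * w := by
  have par : 0 < 2 * (a * r) := by positivity
  have paV : 0 < 2 * (a * V) := by positivity
  have pas : 0 < 2 * (a * σ) := by positivity
  obtain ⟨q, rem, e1, e2, e3⟩ : ∃ q rem : ℤ, 2 * (a * r) * q + rem = a * w - 2 * u0 ∧
      0 ≤ rem ∧ rem < 2 * (a * r) :=
    ⟨_, _, Int.mul_ediv_add_emod (a * w - 2 * u0) (2 * (a * r)),
      Int.emod_nonneg _ (ne_of_gt par), Int.emod_lt_of_pos _ par⟩
  obtain ⟨i0, T, f1, f2, f3⟩ : ∃ i0 T : ℤ,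
      2 * (a * V) * i0 + T = a * w - 2 * (v0 - a * σ * q) ∧ 0 ≤ T ∧ T < 2 * (a * V) :=
    ⟨_, _, Int.mul_ediv_add_emod (a * w - 2 * (v0 - a * σ * q)) (2 * (a * V)),
      Int.emod_nonneg _ (ne_of_gt paV), Int.emod_lt_of_pos _ paV⟩
  obtain ⟨k0, R, g1, g2, g3⟩ : ∃ k0 R : ℤ, 2 * (a * σ) * k0 + R = T ∧ 0 ≤ R ∧
      R < 2 * (a * σ) :=
    ⟨_, _, Int.mul_ediv_add_emod T (2 * (a * σ)),
      Int.emod_nonneg _ (ne_of_gt pas), Int.emod_lt_of_pos _ pas⟩
  have hk00 : 0 ≤ k0 := by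
    by_contra hc
    have h1 : k0 ≤ -1 := by omega
    nlinarith
  obtain ⟨k, hk0, hk1, hk2, hk3⟩ : ∃ k : ℤ, 0 ≤ k ∧ k ≤ m - 1 ∧ 2 * (a * σ) * k ≤ T ∧
      T ≤ 2 * (a * w) + 2 * (a * σ) * k := by
    by_cases hc : k0 ≤ m - 1
    · refine ⟨k0, hk00, hc, by linarith, ?_⟩
      have h1 : a * σ ≤ a * w := mul_le_mul_of_nonneg_left hsw ha.le
      linarith
    · refine ⟨m - 1, by omega, le_refl _, ?_, ?_⟩
      · have h1 : 2 * (a * σ) * (m - 1) ≤ 2 * (a * σ) * k0 :=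
          mul_le_mul_of_nonneg_left (by omega) pas.le
        linarith
      · have h1 : a * V ≤ a * ((m - 1) * σ + w) := mul_le_mul_of_nonneg_left hVw ha.le
        have h2 : a * ((m - 1) * σ + w) = a * σ * (m - 1) + a * w := by ring
        have h3 : 2 * (a * σ) * (m - 1) = 2 * (a * σ * (m - 1)) := by ring
        rw [h3]
        linarith
  have hark : a * r * k ≤ a * r * (m - 1) := mul_le_mul_of_nonneg_left hk1 (by positivity)
  have hark0 : 0 ≤ a * r * k := by positivity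
  have harm : a * r * (m - 1) = a * w - a * r := by rw [← hw]; ring
  refine ⟨-q + k, -i0, ?_, ?_⟩
  · have h1 : 2 * (u0 - a * r * (-q + k)) = a * w - rem - 2 * (a * r * k) := by linarith
    rw [h1, abs_le]
    constructor <;> linarith
  · have h1 : 2 * (v0 + a * σ * (-q + k) - a * V * -i0) =
        a * w - T + 2 * (a * σ) * k := by linarith
    rw [h1, abs_le]
    constructor <;> linarith

theorem abs_add_le_of {s t h u v : ℤ} (hu : u = s + t) (hv : v = s - t)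
    (h1 : |2 * u| ≤ 2 * h + 1) (h2 : |2 * v| ≤ 2 * h + 1) : |s| + |t| ≤ h := by
  rw [abs_le] at h1 h2
  rcases abs_cases s with ⟨e1, _⟩ | ⟨e1, _⟩ <;> rcases abs_cases t with ⟨e2, _⟩ | ⟨e2, _⟩ <;>
    rw [e1, e2] <;> omega

variable {G : Type*} [AddCommGroup G]

theorem words_one {P Q : G} {a b w κ h : ℤ} (hP : a • P = 0) (hQ : (a * b) • Q = 0)
    (ha : 0 < a) (hb : 0 < b) (hκ : 0 ≤ κ)
    (hsw : 2 * κ + 1 ≤ w) (hV : 2 * b ≤ (w - 1) * (2 * κ + 1) + w) (hah : a * w ≤ 2 * h + 1) :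
    ∃ x y : G, ∀ γ δ : ℤ, ∃ s t : ℤ, s • x + t • y = γ • P + δ • Q ∧ |s| + |t| ≤ h := by
  refine ⟨P + (κ + 1) • Q, P + κ • Q, fun α β => ?_⟩
  obtain ⟨j, i, h1, h2⟩ := box (a := a) (r := 1) (m := w) (w := w) (V := 2 * b)
    (σ := 2 * κ + 1) ha one_pos (by omega) (one_mul w) (by omega) hsw (by omega) hV α
    (2 * β - α * (2 * κ + 1))
  refine ⟨β - κ * α + a * κ * j - a * b * i,
    α - a * j - (β - κ * α + a * κ * j - a * b * i), ?_, ?_⟩
  · have e : (β - κ * α + a * κ * j - a * b * i) • (P + (κ + 1) • Q) +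
        (α - a * j - (β - κ * α + a * κ * j - a * b * i)) • (P + κ • Q) =
        α • P + β • Q - j • (a • P) - i • ((a * b) • Q) := by
      module
    rw [e, hP, hQ]
    simp
  · refine abs_add_le_of rfl rfl ?_ ?_
    · have e : β - κ * α + a * κ * j - a * b * i +
          (α - a * j - (β - κ * α + a * κ * j - a * b * i)) = α - a * 1 * j := by ring
      rw [e]
      exact h1.trans hah
    · have e : β - κ * α + a * κ * j - a * b * i -
          (α - a * j - (β - κ * α + a * κ * j - a * b * i)) =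
          2 * β - α * (2 * κ + 1) + a * (2 * κ + 1) * j - a * (2 * b) * i := by ring
      rw [e]
      exact h2.trans hah

theorem words_two {P Q : G} {a b ω κ ε h : ℤ} (hP : a • P = 0) (hQ : (a * (2 * b)) • Q = 0)
    (ha : 0 < a) (hb : 0 < b) (hω : 0 < ω)
    (hκ : 2 * κ = ω + ε * b) (hV : 2 * b ≤ ω * (2 * ω)) (hah : a * (2 * ω) ≤ 2 * h + 1) :
    ∃ x y : G, ∀ γ δ : ℤ, ∃ s t : ℤ, s • x + t • y = γ • P + δ • Q ∧ |s| + |t| ≤ h := by
  refine ⟨κ • P + (2 * κ + 1) • Q, (κ - 1) • P + (2 * κ - 1) • Q, fun γ δ => ?_⟩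
  obtain ⟨j, i, h1, h2⟩ := box (a := a) (r := 2) (m := ω) (w := 2 * ω) (V := 2 * b)
    (σ := 2 * ω) ha two_pos hω rfl (by omega) le_rfl (by omega)
    (by linarith [show (ω - 1) * (2 * ω) + 2 * ω = ω * (2 * ω) by ring]) (δ - 2 * γ)
    (δ - 2 * κ * (δ - 2 * γ))
  have hω' : ω = 2 * κ - ε * b := by linarith
  subst hω'
  refine ⟨δ - γ - κ * δ + 2 * κ * γ - a * j + a * (2 * κ - ε * b) * j - a * b * i,
    δ - 2 * γ - 2 * a * j -
      (δ - γ - κ * δ + 2 * κ * γ - a * j + a * (2 * κ - ε * b) * j - a * b * i), ?_, ?_⟩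
  · have e : (δ - γ - κ * δ + 2 * κ * γ - a * j + a * (2 * κ - ε * b) * j - a * b * i) •
        (κ • P + (2 * κ + 1) • Q) + (δ - 2 * γ - 2 * a * j -
      (δ - γ - κ * δ + 2 * κ * γ - a * j + a * (2 * κ - ε * b) * j - a * b * i)) •
        ((κ - 1) • P + (2 * κ - 1) • Q) =
        γ • P + δ • Q + (j * (1 - ε * b) - b * i) • (a • P) -
          (ε * j + i) • ((a * (2 * b)) • Q) := by
      module
    rw [e, hP, hQ]
    simp
  · refine abs_add_le_of rfl rfl ?_ ?_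
    · have e : δ - γ - κ * δ + 2 * κ * γ - a * j + a * (2 * κ - ε * b) * j - a * b * i +
          (δ - 2 * γ - 2 * a * j -
      (δ - γ - κ * δ + 2 * κ * γ - a * j + a * (2 * κ - ε * b) * j - a * b * i)) =
          δ - 2 * γ - a * 2 * j := by ring
      rw [e]
      exact h1.trans hah
    · have e : δ - γ - κ * δ + 2 * κ * γ - a * j + a * (2 * κ - ε * b) * j - a * b * i -
          (δ - 2 * γ - 2 * a * j -
      (δ - γ - κ * δ + 2 * κ * γ - a * j + a * (2 * κ - ε * b) * j - a * b * i)) =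
          δ - 2 * κ * (δ - 2 * γ) + a * (2 * (2 * κ - ε * b)) * j - a * (2 * b) * i := by ring
      rw [e]
      exact h2.trans hah

theorem phiPM_le_three {h : ℕ}
    (H : ∃ x y : G, ∀ g, ∃ s t : ℤ, s • x + t • y = g ∧ |s| + |t| ≤ (h : ℤ)) :
    phiPM G h ≤ 3 := by
  classical
  obtain ⟨x, y, H⟩ := H
  by_cases hxy : x = y
  · subst hxy
    have h1 : phiPM G h ≤ ({x} : Finset G).card + 1 := phiPM_le_of_words h {x} (fun g => by
      obtain ⟨s, t, e, hst⟩ := H g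
      refine ⟨fun _ => s + t, ?_, ?_⟩
      · rw [Finset.sum_singleton, add_smul, e]
      · rw [Finset.sum_singleton]
        exact (abs_add_le s t).trans hst)
    rw [Finset.card_singleton] at h1
    omega
  · have h1 : phiPM G h ≤ ({x, y} : Finset G).card + 1 := phiPM_le_of_words h {x, y} (fun g => by
      obtain ⟨s, t, e, hst⟩ := H g
      refine ⟨fun z => if z = x then s else t, ?_, ?_⟩
      · rw [Finset.sum_pair hxy]
        beta_reduce
        rw [if_pos rfl, if_neg (Ne.symm hxy), e]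
      · rw [Finset.sum_pair hxy]
        beta_reduce
        rw [if_pos rfl, if_neg (Ne.symm hxy)]
        exact hst)
    rw [Finset.card_pair hxy] at h1
    exact h1

/-- the numerical condition -/
def Good (h a b : ℕ) : Prop :=
  ∃ w : ℕ, a * w ≤ 2 * h + 1 ∧
    ((Odd w ∧ 2 * b ≤ w ^ 2) ∨ (Even w ∧ 2 * b + w ≤ w ^ 2 + 1) ∨
      (Even w ∧ Even b ∧ 2 * b ≤ w ^ 2 ∧ (4 ∣ w ∨ ¬ 4 ∣ b)))

theorem words {P Q : G} {h a b : ℕ} (ha : 1 ≤ a) (hb : 1 ≤ b) (hP : (a : ℤ) • P = 0)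
    (hQ : ((a : ℤ) * b) • Q = 0) (hgood : Good h a b) :
    ∃ x y : G, ∀ γ δ : ℤ, ∃ s t : ℤ, s • x + t • y = γ • P + δ • Q ∧ |s| + |t| ≤ (h : ℤ) := by
  obtain ⟨w, hw, hc⟩ := hgood
  have hw' : (a : ℤ) * w ≤ 2 * (h : ℤ) + 1 := by exact_mod_cast hw
  rcases hc with ⟨⟨k, hk⟩, h2⟩ | ⟨⟨k, hk⟩, h2⟩ | ⟨⟨k, hk⟩, ⟨β, hβ⟩, h2, h3⟩
  · have hk' : (w : ℤ) = 2 * k + 1 := by exact_mod_cast hk
    have h2' : 2 * (b : ℤ) ≤ (w : ℤ) ^ 2 := by exact_mod_cast h2
    exact words_one (w := w) (κ := k) hP hQ (by omega) (by omega) (by omega) (by omega)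
      (by rw [← hk']; nlinarith) hw'
  · have hk' : (w : ℤ) = k + k := by exact_mod_cast hk
    have h2' : 2 * (b : ℤ) + w ≤ (w : ℤ) ^ 2 + 1 := by exact_mod_cast h2
    have hk1 : 1 ≤ (k : ℤ) := by
      rcases Nat.eq_zero_or_pos k with h0 | h0
      · subst h0
        exfalso
        have : (w : ℤ) = 0 := by rw [hk']; simp
        rw [this] at h2'
        omega
      · exact_mod_cast h0
    refine words_one (w := w) (κ := k - 1) hP hQ (by omega) (by omega) (by omega) (by omega)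
      ?_ hw'
    have e : 2 * ((k : ℤ) - 1) + 1 = w - 1 := by omega
    rw [e]
    nlinarith
  · have hk' : (w : ℤ) = 2 * k := by omega
    have hb' : (b : ℤ) = 2 * β := by omega
    have h2' : 2 * (b : ℤ) ≤ (w : ℤ) ^ 2 := by exact_mod_cast h2
    have hβ0 : 0 < (β : ℤ) := by omega
    have hk0 : 0 < (k : ℤ) := by
      rcases Nat.eq_zero_or_pos k with h0 | h0
      · subst h0
        exfalso
        have : (w : ℤ) = 0 := by rw [hk']; simp
        rw [this] at h2'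
        omega
      · exact_mod_cast h0
    rw [hb'] at hQ
    rw [hk', hb'] at h2'
    rw [hk'] at hw'
    rcases Nat.even_or_odd k with ⟨l, hl⟩ | ⟨l, hl⟩
    · exact words_two (ω := k) (κ := l) (ε := 0) hP hQ (by omega) hβ0 hk0
        (by omega) (by nlinarith) hw'
    · have hβodd : ¬ 2 ∣ β := by
        intro hd
        rcases h3 with h3 | h3
        · omega
        · omega
      obtain ⟨r, hr⟩ : ∃ r : ℕ, β = 2 * r + 1 := ⟨β / 2, by omega⟩
      exact words_two (ω := k) (κ := l + r + 1) (ε := 1) hP hQ (by omega) hβ0 hk0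
        (by omega) (by nlinarith) hw'

theorem upper {P Q : G} {h a b : ℕ} (ha : 1 ≤ a) (hb : 1 ≤ b) (hP : (a : ℤ) • P = 0)
    (hQ : ((a : ℤ) * b) • Q = 0) (hgen : ∀ g : G, ∃ γ δ : ℤ, γ • P + δ • Q = g)
    (hgood : Good h a b) : phiPM G h ≤ 3 := by
  obtain ⟨x, y, H⟩ := words ha hb hP hQ hgood
  apply phiPM_le_three
  refine ⟨x, y, fun g => ?_⟩
  obtain ⟨γ, δ, rfl⟩ := hgen g
  exact H γ δ

end Pool.Agent.Lib.MP_3a897b_coS
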