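import Pool.Agent.Lib.MP_3a897b_coS.General

/-!
# The elementary group of order eight and `h = 2`
-/

namespace Pool.Agent.Lib.MP_3a897b_coS

open Pool.Agent.Lib.MP_3a897b_co

variable {G : Type*} [AddCommGroup G]

theorem two_smul_zero [Finite G] (hr : AddGroup.rank G = 3) (hn : Nat.card G = 8) (g : G) :
    g + g = 0 := by
  obtain ⟨e, n, h1, h2, h3, h4⟩ := gens (G := G)
  have h5 : ∀ i, n i = 2 := by
    intro i
    by_contra hc
    have h6 : 3 ≤ n i := by have := h1 i; omega
    have h7 : ∏ j, n j = n i * ∏ j ∈ Finset.univ.erase i, n j :=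
      (Finset.mul_prod_erase Finset.univ n (Finset.mem_univ i)).symm
    have h8 : 2 ^ 2 ≤ ∏ j ∈ Finset.univ.erase i, n j := by
      calc 2 ^ 2 = ∏ _j ∈ Finset.univ.erase i, 2 := by
            rw [Finset.prod_const, Finset.card_erase_of_mem (Finset.mem_univ i),
              Finset.card_univ, Fintype.card_fin, hr]
        _ ≤ _ := Finset.prod_le_prod' fun j _ => h1 j
    rw [h2, hn] at h7
    nlinarith
  obtain ⟨k, rfl⟩ := h4 g
  rw [← Finset.sum_add_distrib]
  apply Finset.sum_eq_zero
  intro i _
  have h6 := h3 i
  rw [h5 i] at h6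
  have e1 : k i • e i + k i • e i = k i • (((2 : ℕ) : ℤ) • e i) := by
    push_cast
    module
  rw [e1, h6, smul_zero]

theorem not_four [Finite G] (h2 : ∀ g : G, g + g = 0) (hn : Nat.card G = 8) (A : Finset G)
    (hA : A.card ≤ 4) : signedSumset 2 A ≠ Set.univ := by
  classical
  intro hA2
  have := Fintype.ofFinite G
  let T : Finset G := insert 0 ((A.powersetCard 2).image fun B => ∑ b ∈ B, b)
  have hT : T.card ≤ 7 := by
    refine (Finset.card_insert_le _ _).trans ?_
    have h3 : ((A.powersetCard 2).image fun B => ∑ b ∈ B, b).card ≤ 6 := by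
      refine Finset.card_image_le.trans ?_
      rw [Finset.card_powersetCard]
      exact (Nat.choose_le_choose 2 hA).trans (by decide)
    omega
  have hall : ∀ g : G, g ∈ T := by
    intro g
    have hg : g ∈ signedSumset 2 A := by rw [hA2]; trivial
    obtain ⟨c, hc1, hc2⟩ := hg
    have hsum : ∑ a ∈ A.filter (fun a => c a % 2 = 1), a = g := by
      rw [← hc2, Finset.sum_filter]
      refine Finset.sum_congr rfl fun a _ => ?_
      split_ifs with hodd
      · have h4 : c a = 1 + (c a / 2) * 2 := by omega
        rw [h4, add_smul, one_smul, mul_smul, two_smul, h2 a, smul_zero, add_zero]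
      · have h4 : c a = (c a / 2) * 2 := by omega
        rw [h4, mul_smul, two_smul, h2 a, smul_zero]
    have hpar : ∃ m : ℤ, ∑ a ∈ A, |c a| = (A.filter (fun a => c a % 2 = 1)).card + 2 * m ∧
        0 ≤ m := by
      have h5 : ((A.filter (fun a => c a % 2 = 1)).card : ℤ) =
          ∑ a ∈ A, (if c a % 2 = 1 then (1 : ℤ) else 0) := by
        rw [Finset.card_filter]
        push_cast
        rfl
      refine ⟨∑ a ∈ A, |c a| / 2, ?_, Finset.sum_nonneg fun a _ =>
        Int.ediv_nonneg (abs_nonneg _) (by norm_num)⟩
      rw [h5, Finset.mul_sum, ← Finset.sum_add_distrib]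
      refine Finset.sum_congr rfl fun a _ => ?_
      split_ifs with hodd
      · rcases abs_cases (c a) with ⟨h6, _⟩ | ⟨h6, _⟩ <;> rw [h6] <;> omega
      · rcases abs_cases (c a) with ⟨h6, _⟩ | ⟨h6, _⟩ <;> rw [h6] <;> omega
    obtain ⟨m, hm, hm0⟩ := hpar
    rw [hc1] at hm
    have hcard : (A.filter (fun a => c a % 2 = 1)).card = 0 ∨
        (A.filter (fun a => c a % 2 = 1)).card = 2 := by
      push_cast at hm
      omega
    rw [Finset.mem_insert, Finset.mem_image]
    rcases hcard with h6 | h6
    · left
      rw [Finset.card_eq_zero] at h6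
      rw [h6, Finset.sum_empty] at hsum
      exact hsum.symm
    · right
      exact ⟨_, Finset.mem_powersetCard.mpr ⟨Finset.filter_subset _ _, h6⟩, hsum⟩
  have h3 : (Finset.univ : Finset G).card ≤ T.card := Finset.card_le_card fun g _ => hall g
  rw [Finset.card_univ, ← Nat.card_eq_fintype_card, hn] at h3
  omega

theorem five [Finite G] (h2 : ∀ g : G, g + g = 0) (hn : Nat.card G = 8) :
    ∃ A : Finset G, A.card = 5 ∧ signedSumset 2 A = Set.univ := by
  classical
  have := Fintype.ofFinite G
  have hu : (Finset.univ : Finset G).card = 8 := by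
    rw [Finset.card_univ, ← Nat.card_eq_fintype_card, hn]
  obtain ⟨A, -, hA⟩ := Finset.exists_subset_card_eq (s := (Finset.univ : Finset G)) (n := 5)
    (by omega)
  refine ⟨A, hA, ?_⟩
  rw [Set.eq_univ_iff_forall]
  intro g
  obtain ⟨a, ha, hag⟩ : ∃ a ∈ A, a + g ∈ A := by
    by_contra hc
    push Not at hc
    have hd : Disjoint A (A.image (fun a => a + g)) := by
      rw [Finset.disjoint_left]
      intro b hb hb2
      obtain ⟨a, ha, rfl⟩ := Finset.mem_image.mp hb2
      exact hc a ha hb
    have h3 : (A ∪ A.image (fun a => a + g)).card ≤ 8 := by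
      rw [← hu]
      exact Finset.card_le_card (Finset.subset_univ _)
    rw [Finset.card_union_of_disjoint hd, Finset.card_image_of_injective _
      (add_left_injective g), hA] at h3
    omega
  by_cases hg : g = 0
  · subst hg
    refine ⟨fun b => if b = a then 2 else 0, ?_, ?_⟩
    · rw [Finset.sum_eq_single a]
      · simp
      · intro b _ hb
        simp [hb]
      · intro h
        exact absurd ha h
    · rw [Finset.sum_eq_single a]
      · simp [two_smul, h2 a]
      · intro b _ hb
        simp [hb]
      · intro h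
        exact absurd ha h
  · have hne : a ≠ a + g := fun h => hg (by
      have : a + 0 = a + g := by rw [add_zero]; exact h
      exact (add_left_cancel this).symm)
    have hsub : ({a, a + g} : Finset G) ⊆ A := by
      intro b hb
      rw [Finset.mem_insert, Finset.mem_singleton] at hb
      rcases hb with rfl | rfl
      · exact ha
      · exact hag
    refine ⟨fun b => if b ∈ ({a, a + g} : Finset G) then 1 else 0, ?_, ?_⟩
    · rw [← Finset.sum_subset hsub (fun b _ hb => by simp only [if_neg hb, abs_zero]),
        Finset.sum_pair hne]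
      simp
    · rw [← Finset.sum_subset hsub (fun b _ hb => by simp only [if_neg hb, zero_smul]),
        Finset.sum_pair hne]
      simp only [Finset.mem_insert, Finset.mem_singleton, true_or, or_true, if_true, one_smul]
      rw [← add_assoc, h2 a, zero_add]

theorem phi_eight [Finite G] (hr : AddGroup.rank G = 3) (hn : Nat.card G = 8) :
    phiPM G 2 = 5 := by
  have h2 := two_smul_zero hr hn
  obtain ⟨A, hA, hspan⟩ := five h2 hn
  have hle : phiPM G 2 ≤ 5 := by
    rw [← hA]
    exact Nat.sInf_le ⟨A, rfl, hspan⟩
  have hne : {m | ∃ A : Finset G, A.card = m ∧ signedSumset 2 A = Set.univ}.Nonempty :=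
    ⟨5, A, hA, hspan⟩
  obtain ⟨B, hB, hB2⟩ := Nat.sInf_mem hne
  have hB' : B.card = phiPM G 2 := hB
  by_contra hc
  exact not_four h2 hn B (by omega) hB2

end Pool.Agent.Lib.MP_3a897b_coS
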