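import Pool.Agent.Lib.MP_3a897b_coS.RankTwo

/-!
# All groups of rank at least two of order less than `(h + 1) ^ 2`
-/

namespace Pool.Agent.Lib.MP_3a897b_coS

open Pool.Agent.Lib.MP_3a897b_co

variable {G : Type*} [AddCommGroup G]

theorem gens [Finite G] :
    ∃ (e : Fin (AddGroup.rank G) → G) (n : Fin (AddGroup.rank G) → ℕ), (∀ i, 2 ≤ n i) ∧
      ∏ i, n i = Nat.card G ∧ (∀ i, (n i : ℤ) • e i = 0) ∧
      ∀ g : G, ∃ k : Fin (AddGroup.rank G) → ℤ, ∑ i, k i • e i = g := by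
  classical
  obtain ⟨S, hS, hcl⟩ := AddGroup.rank_spec G
  let v : Fin (AddGroup.rank G) → G := fun i => (S.equivFin.symm (Fin.cast hS.symm i) : G)
  have hv : ∀ a ∈ S, ∃ i, v i = a := fun a ha =>
    ⟨Fin.cast hS (S.equivFin ⟨a, ha⟩), by simp [v]⟩
  let f : (Fin (AddGroup.rank G) → ℤ) →ₗ[ℤ] G := Fintype.linearCombination ℤ v
  have hf : Function.Surjective f := fun g => by
    have h2 : g ∈ AddSubgroup.closure (S : Set G) := by
      rw [hcl]
      exact AddSubgroup.mem_top g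
    have h3 : AddSubgroup.closure (S : Set G) ≤ (LinearMap.range f).toAddSubgroup := by
      rw [AddSubgroup.closure_le]
      intro a ha
      obtain ⟨i, hi⟩ := hv a ha
      refine ⟨Pi.single i 1, ?_⟩
      rw [← hi]
      simp [f]
    obtain ⟨k, hk⟩ := h3 h2
    exact ⟨k, hk⟩
  let E := LinearMap.quotKerEquivOfSurjective f hf
  have hfin : Finite ((Fin (AddGroup.rank G) → ℤ) ⧸ LinearMap.ker f) :=
    Finite.of_equiv G E.toEquiv.symm
  have hrk := (Submodule.finiteQuotient_iff (LinearMap.ker f)).mp hfin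
  let n : Fin (AddGroup.rank G) → ℕ := fun i =>
    (Submodule.smithNormalFormCoeffs (Pi.basisFun ℤ (Fin (AddGroup.rank G))) hrk i).natAbs
  let F : ((Fin (AddGroup.rank G) → ℤ) ⧸ LinearMap.ker f) ≃+ (∀ i, ZMod (n i)) :=
    Submodule.quotientEquivPiZMod (LinearMap.ker f) (Pi.basisFun ℤ (Fin (AddGroup.rank G))) hrk
  let ψ : G ≃+ (∀ i, ZMod (n i)) := E.symm.toAddEquiv.trans F
  have hcard : ∏ i, n i = Nat.card G := by
    rw [Nat.card_congr ψ.toEquiv, Nat.card_pi]
    exact Finset.prod_congr rfl fun i _ => (Nat.card_zmod _).symm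
  have hz : ∀ i, (n i : ℤ) • ψ.symm (Pi.single i 1) = 0 := fun i => by
    rw [← map_zsmul, ← Pi.single_smul]
    have : ((n i : ℤ) • (1 : ZMod (n i))) = 0 := by simp
    rw [this, Pi.single_zero, map_zero]
  have hgen : ∀ g : G, ∃ k : Fin (AddGroup.rank G) → ℤ,
      ∑ i, k i • ψ.symm (Pi.single i 1) = g := fun g => by
    choose k hk using fun i => ZMod.intCast_surjective (ψ g i)
    refine ⟨k, ?_⟩
    apply ψ.injective
    rw [map_sum]
    funext j
    rw [Finset.sum_apply]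
    rw [Finset.sum_eq_single j]
    · rw [map_zsmul, AddEquiv.apply_symm_apply]
      simp [hk]
    · intro i _ hij
      rw [map_zsmul, AddEquiv.apply_symm_apply, Pi.smul_apply, Pi.single_eq_of_ne (Ne.symm hij),
        smul_zero]
    · intro h
      exact absurd (Finset.mem_univ j) h
  refine ⟨fun i => ψ.symm (Pi.single i 1), n, fun i => ?_, hcard, hz, hgen⟩
  by_contra hlt
  have hpos : n i ≠ 0 := fun h0 => by
    have h1 : ∏ i, n i = 0 := Finset.prod_eq_zero (Finset.mem_univ i) h0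
    rw [hcard] at h1
    exact absurd h1 (Nat.card_pos).ne'
  have h1 : n i = 1 := by omega
  have h2 : ψ.symm (Pi.single i 1) = 0 := by
    have h3 := hz i
    have h1' : (n i : ℤ) = 1 := by exact_mod_cast h1
    rw [h1', one_smul] at h3
    exact h3
  have h4 : AddSubgroup.closure
      (((Finset.univ.erase i).image fun j => ψ.symm (Pi.single j 1) : Finset G) : Set G) = ⊤ := by
    rw [eq_top_iff]
    intro g _
    obtain ⟨k, rfl⟩ := hgen g
    apply AddSubgroup.sum_mem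
    intro j _
    by_cases hj : j = i
    · rw [hj, h2, smul_zero]
      exact AddSubgroup.zero_mem _
    · apply AddSubgroup.zsmul_mem
      apply AddSubgroup.subset_closure
      rw [Finset.mem_coe, Finset.mem_image]
      exact ⟨j, Finset.mem_erase.mpr ⟨hj, Finset.mem_univ j⟩, rfl⟩
  have h5 := AddGroup.rank_le h4
  have h6 : ((Finset.univ.erase i).image fun j => ψ.symm (Pi.single j 1) : Finset G).card ≤
      AddGroup.rank G - 1 := by
    refine Finset.card_image_le.trans ?_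
    rw [Finset.card_erase_of_mem (Finset.mem_univ i), Finset.card_univ, Fintype.card_fin]
  have h7 : 0 < AddGroup.rank G := i.pos
  omega

theorem pair {e0 e1 : G} {c0 c1 h : ℕ} (h0 : (c0 : ℤ) • e0 = 0) (h1 : (c1 : ℤ) • e1 = 0)
    (p0 : 0 < c0) (p1 : 0 < c1) (hn : c0 * c1 < (h + 1) ^ 2) :
    ∃ x y : G, ∀ k l : ℤ, ∃ s t : ℤ, s • x + t • y = k • e0 + l • e1 ∧ |s| + |t| ≤ (h : ℤ) := by
  obtain ⟨d, p, q, hd, hcop, rfl, rfl⟩ := Nat.exists_coprime' (Nat.gcd_pos_of_pos_left c1 p0)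
  have hp : 0 < p := Nat.pos_of_mul_pos_right p0
  have hq : 0 < q := Nat.pos_of_mul_pos_right p1
  obtain ⟨r, s, hrs⟩ : ∃ r s : ℤ, (q : ℤ) * s - p * r = 1 := by
    have hb : IsCoprime (p : ℤ) (q : ℤ) := Nat.isCoprime_iff_coprime.mpr hcop
    obtain ⟨u, v, huv⟩ := hb
    exact ⟨-u, v, by linarith⟩
  push_cast at h0 h1
  have hP : (d : ℤ) • ((-(p : ℤ)) • e0 + (q : ℤ) • e1) = 0 := by
    have e : (d : ℤ) • ((-(p : ℤ)) • e0 + (q : ℤ) • e1) =
        -(((p : ℤ) * d) • e0) + ((q : ℤ) * d) • e1 := by module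
    rw [e, h0, h1]
    simp
  have hQ : ((d : ℤ) * ((p * q : ℕ) : ℤ)) • (s • e0 + (-r) • e1) = 0 := by
    push_cast
    have e : ((d : ℤ) * (p * q)) • (s • e0 + (-r) • e1) =
        (s * q) • (((p : ℤ) * d) • e0) - (r * p) • (((q : ℤ) * d) • e1) := by module
    rw [e, h0, h1]
    simp
  have hlt : d ^ 2 * (p * q) < (h + 1) ^ 2 := by
    calc d ^ 2 * (p * q) = p * d * (q * d) := by ring
      _ < (h + 1) ^ 2 := hn
  obtain ⟨x, y, H⟩ := words hd (Nat.mul_pos hp hq) hP hQ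
    (good_of_lt (Nat.mul_pos hp hq) hlt)
  refine ⟨x, y, fun k l => ?_⟩
  obtain ⟨s', t', h2, h3⟩ := H (r * k + s * l) (q * k + p * l)
  refine ⟨s', t', ?_, h3⟩
  rw [h2]
  have e : (r * k + s * l) • ((-(p : ℤ)) • e0 + (q : ℤ) • e1) +
      ((q : ℤ) * k + p * l) • (s • e0 + (-r) • e1) =
      (((q : ℤ) * s - p * r) * k) • e0 + (((q : ℤ) * s - p * r) * l) • e1 := by module
  rw [e, hrs, one_mul, one_mul]

theorem arith {a r N h : ℕ} (ha : 2 ≤ a) (hr : 2 ≤ r) (hge : a ^ r ≤ N)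
    (hlt : a * N < (h + 1) ^ 2) (hex : ¬ (r + 1 = 3 ∧ a * N = 8 ∧ h = 2)) :
    a / 2 ≤ h ∧ N < (h - a / 2 + 1) ^ 2 ∧ ¬ (r = 3 ∧ N = 8 ∧ h - a / 2 = 2) := by
  have h1 : a ^ 2 ≤ N := (Nat.pow_le_pow_right (by omega) hr).trans hge
  have h2 : a / 2 ≤ h := by
    by_contra hc
    have h3 : h + 1 ≤ a / 2 := by omega
    have h4 : h + 1 ≤ a := by omega
    have h5 : (h + 1) ^ 2 ≤ a ^ 2 := Nat.pow_le_pow_left h4 2
    nlinarith
  refine ⟨h2, ?_, ?_⟩
  · by_contra hc
    push Not at hc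
    obtain ⟨u, hu⟩ : ∃ u, u = h - a / 2 + 1 := ⟨_, rfl⟩
    rw [← hu] at hc
    obtain ⟨f, hf⟩ : ∃ f, f = a / 2 := ⟨_, rfl⟩
    have h3 : h + 1 = u + f := by omega
    have h4 : 2 * f ≤ a := by omega
    rw [h3] at hlt
    rcases Nat.lt_or_ge a 3 with h5 | h5
    · have h6 : a = 2 := by omega
      subst h6
      have h7 : f = 1 := by omega
      subst h7
      have h8 : u ≤ 2 := by
        by_contra h9
        have h10 : 3 ≤ u := by omega
        nlinarith
      have h9 : (u + 1) ^ 2 ≤ 3 ^ 2 := Nat.pow_le_pow_left (by omega) 2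
      have h10 : N ≤ 4 := by omega
      have h11 : r = 2 := by
        by_contra h12
        have h13 : 2 ^ 3 ≤ 2 ^ r := Nat.pow_le_pow_right (by norm_num) (by omega)
        omega
      have h12 : N = 4 := by omega
      have h13 : u = 2 := by
        by_contra h14
        have h15 : (u + 1) ^ 2 ≤ 2 ^ 2 := Nat.pow_le_pow_left (by omega) 2
        omega
      exact hex ⟨by omega, by omega, by omega⟩
    · rcases Nat.lt_or_ge u a with h6 | h6
      · have h7 : 2 * (u + f) ≤ 3 * a := by omega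
        have h8 : (2 * (u + f)) ^ 2 ≤ (3 * a) ^ 2 := Nat.pow_le_pow_left h7 2
        nlinarith
      · have h7 : 2 * (u + f) ≤ 3 * u := by omega
        have h8 : (2 * (u + f)) ^ 2 ≤ (3 * u) ^ 2 := Nat.pow_le_pow_left h7 2
        nlinarith
  · rintro ⟨rfl, rfl, h3⟩
    have h4 : a = 2 := by
      by_contra hc
      have h5 : 3 ^ 3 ≤ a ^ 3 := Nat.pow_le_pow_left (by omega) 3
      omega
    subst h4
    have h5 : h = 3 := by omega
    subst h5
    omega

theorem words_all (r : ℕ) (hr : 2 ≤ r) : ∀ (e : Fin r → G) (n : Fin r → ℕ) (h : ℕ),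
    (∀ i, 2 ≤ n i) → (∀ i, (n i : ℤ) • e i = 0) → ∏ i, n i < (h + 1) ^ 2 →
    ¬ (r = 3 ∧ ∏ i, n i = 8 ∧ h = 2) →
    ∃ x : Fin r → G, ∀ k : Fin r → ℤ, ∃ c : Fin r → ℤ, ∑ i, c i • x i = ∑ i, k i • e i ∧
      ∑ i, |c i| ≤ (h : ℤ) := by
  induction r, hr using Nat.le_induction with
  | base =>
    intro e n h hn he hlt _
    rw [Fin.prod_univ_two] at hlt
    obtain ⟨x, y, H⟩ := pair (he 0) (he 1) (by have := hn 0; omega) (by have := hn 1; omega) hlt
    refine ⟨![x, y], fun k => ?_⟩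
    obtain ⟨s, t, h1, h2⟩ := H (k 0) (k 1)
    refine ⟨![s, t], ?_, ?_⟩
    · rw [Fin.sum_univ_two, Fin.sum_univ_two]
      exact h1
    · rw [Fin.sum_univ_two]
      exact h2
  | succ r hr ih =>
    intro e n h hn he hlt hex
    obtain ⟨p, -, hp⟩ := Finset.exists_min_image Finset.univ n Finset.univ_nonempty
    have hN : ∏ i, n i = n p * ∏ j, n (p.succAbove j) := Fin.prod_univ_succAbove _ p
    have hge : n p ^ r ≤ ∏ j, n (p.succAbove j) := by
      calc n p ^ r = ∏ _j : Fin r, n p := by simp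
        _ ≤ _ := Finset.prod_le_prod' (fun j _ => hp _ (Finset.mem_univ _))
    rw [hN] at hlt hex
    obtain ⟨h1, h2, h3⟩ := arith (hn p) hr hge hlt hex
    obtain ⟨x', hx'⟩ := ih (fun j => e (p.succAbove j)) (fun j => n (p.succAbove j))
      (h - n p / 2) (fun j => hn _) (fun j => he _) h2 h3
    refine ⟨Fin.cons (e p) x', fun k => ?_⟩
    obtain ⟨q, j', hj, hj'⟩ := exists_balanced (n p) (by have := hn p; omega) (k p)
    obtain ⟨c, hc1, hc2⟩ := hx' (fun j => k (p.succAbove j))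
    refine ⟨Fin.cons j' c, ?_, ?_⟩
    · rw [Fin.sum_univ_succ, Fin.sum_univ_succAbove _ p]
      simp only [Fin.cons_zero, Fin.cons_succ]
      rw [hc1, hj, add_smul, mul_comm, mul_smul, he p, smul_zero, zero_add]
    · rw [Fin.sum_univ_succ]
      simp only [Fin.cons_zero, Fin.cons_succ]
      omega

theorem phiPM_le_of_family {r h : ℕ} (x : Fin r → G)
    (H : ∀ g, ∃ c : Fin r → ℤ, ∑ i, c i • x i = g ∧ ∑ i, |c i| ≤ (h : ℤ)) :
    phiPM G h ≤ r + 1 := by
  classical
  have h1 : phiPM G h ≤ (Finset.univ.image x).card + 1 :=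
    phiPM_le_of_words h (Finset.univ.image x) (fun g => by
      obtain ⟨c, hc1, hc2⟩ := H g
      refine ⟨fun a => ∑ i with x i = a, c i, ?_, ?_⟩
      · rw [← hc1, ← Finset.sum_fiberwise_of_maps_to
          (fun i _ => Finset.mem_image_of_mem x (Finset.mem_univ i)) (fun i => c i • x i)]
        refine Finset.sum_congr rfl fun a _ => ?_
        rw [Finset.sum_smul]
        refine Finset.sum_congr rfl fun i hi => ?_
        rw [(Finset.mem_filter.mp hi).2]
      · refine le_trans ?_ hc2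
        rw [← Finset.sum_fiberwise_of_maps_to
          (fun i _ => Finset.mem_image_of_mem x (Finset.mem_univ i)) (fun i => |c i|)]
        exact Finset.sum_le_sum fun a _ => Finset.abs_sum_le_sum_abs _ _)
  have h2 : (Finset.univ.image x).card ≤ r := by
    refine Finset.card_image_le.trans ?_
    rw [Finset.card_univ, Fintype.card_fin]
  omega

/-- the value of `phiPM` for all groups of rank at least two and order less than `(h + 1) ^ 2` -/
theorem rank_general [Finite G] {h : ℕ} (hh : 1 ≤ h) (hr : 2 ≤ AddGroup.rank G)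
    (hn : Nat.card G < (h + 1) ^ 2)
    (hex : ¬ (AddGroup.rank G = 3 ∧ Nat.card G = 8 ∧ h = 2)) :
    phiPM G h = AddGroup.rank G + 1 := by
  apply le_antisymm
  · obtain ⟨e, n, h1, h2, h3, h4⟩ := gens (G := G)
    rw [← h2] at hn hex
    obtain ⟨x, hx⟩ := words_all _ hr e n h h1 h3 hn hex
    refine phiPM_le_of_family x fun g => ?_
    obtain ⟨k, rfl⟩ := h4 g
    exact hx k
  · exact rank_lt_phiPM (G := G) h hh

end Pool.Agent.Lib.MP_3a897b_coS
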