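import Pool.Agent.Lib.MP_3a897b_coS.General

/-!
# Products of `p` small cyclic groups and one large cyclic group
-/

namespace Pool.Agent.Lib.MP_3a897b_coS

open Pool.Agent.Lib.MP_3a897b_co

variable {G : Type*} [AddCommGroup G]

/-- the first multiple: an integer congruent to `κ` modulo `n` in `[-n k / 2, -n k / 2 + n)` -/
theorem first_rep {n k : ℤ} (hn : 0 < n) (κ : ℤ) :
    ∃ a q : ℤ, a = κ + n * q ∧ -(n * k) ≤ 2 * a ∧ 2 * a < -(n * k) + 2 * n := by
  have h2 : 0 < 2 * n := by omega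
  have e1 := Int.mul_ediv_add_emod (2 * κ + n * k) (2 * n)
  have e2 := Int.emod_nonneg (2 * κ + n * k) (ne_of_gt h2)
  have e3 := Int.emod_lt_of_pos (2 * κ + n * k) h2
  refine ⟨κ + n * (-((2 * κ + n * k) / (2 * n))), _, rfl, ?_, ?_⟩
  · nlinarith
  · nlinarith

/-- words which fill an interval of multiples of `y` and all combinations of the `e i` -/
theorem fill (y : G) (W : ℕ) (hW : 0 < W) : ∀ (p : ℕ) (e : Fin p → G) (n k : Fin p → ℕ),
    (∀ i, 0 < n i) → (∀ i, 0 < k i) → (∀ i, (n i : ℤ) • e i = 0) → (∀ i, n i ∣ W) →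
    ∃ x : Fin p → G, ∀ κ : Fin p → ℤ, ∃ s : ℤ, ∀ c : ℤ, s ≤ c → c < s + W * ∏ i, (k i : ℤ) →
      ∃ (t : ℤ) (v : Fin p → ℤ), t • y + ∑ i, v i • x i = c • y + ∑ i, κ i • e i ∧
        |t| ≤ (W / 2 : ℕ) ∧ ∀ i, |v i| ≤ (n i * k i / 2 : ℕ) := by
  intro p
  induction p with
  | zero =>
    intro e n k _ _ _ _
    refine ⟨fun i => i.elim0, fun κ => ⟨-(W / 2 : ℕ), fun c hc1 hc2 => ?_⟩⟩
    refine ⟨c, fun i => i.elim0, by simp, ?_, fun i => i.elim0⟩
    rw [Finset.univ_eq_empty, Finset.prod_empty, mul_one] at hc2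
    rw [abs_le]
    constructor
    · exact hc1
    · omega
  | succ p ih =>
    intro e n k hn hk he hd
    obtain ⟨x', hx'⟩ := ih (fun i => e i.succ) (fun i => n i.succ) (fun i => k i.succ)
      (fun i => hn _) (fun i => hk _) (fun i => he _) (fun i => hd _)
    obtain ⟨u, hu⟩ := hd 0
    have hn0 : 0 < (n 0 : ℤ) := by exact_mod_cast hn 0
    have hk0 : 0 < (k 0 : ℤ) := by exact_mod_cast hk 0
    set K : ℤ := ∏ i : Fin p, (k i.succ : ℤ) with hK
    have hKpos : 0 < K := Finset.prod_pos fun i _ => by exact_mod_cast hk _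
    -- the step in the direction of `y` of one period of the new coefficient
    refine ⟨Fin.cons (e 0 + (u * K) • y) x', fun κ => ?_⟩
    obtain ⟨s', hs'⟩ := hx' (fun i => κ i.succ)
    obtain ⟨a, q, ha1, ha2, ha3⟩ := first_rep (k := (k 0 : ℤ)) hn0 (κ 0)
    have hWK : (W : ℤ) * K = n 0 * (u * K) := by rw [hu]; push_cast; ring
    have hWKpos : 0 < (W : ℤ) * K := mul_pos (by exact_mod_cast hW) hKpos
    refine ⟨s' + a * (u * K), fun c hc1 hc2 => ?_⟩
    rw [Fin.prod_univ_succ] at hc2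
    obtain ⟨j, rem, e1, e2, e3⟩ : ∃ j rem : ℤ,
        W * K * j + rem = c - (s' + a * (u * K)) ∧ 0 ≤ rem ∧ rem < W * K :=
      ⟨_, _, Int.mul_ediv_add_emod (c - (s' + a * (u * K))) (W * K),
        Int.emod_nonneg _ (ne_of_gt hWKpos), Int.emod_lt_of_pos _ hWKpos⟩
    have hj0 : 0 ≤ j := by
      by_contra hc
      have : j ≤ -1 := by omega
      nlinarith
    have hj1 : j ≤ k 0 - 1 := by
      by_contra hc
      have h1 : (k 0 : ℤ) ≤ j := by omega
      have h2 : W * K * (k 0 : ℤ) ≤ W * K * j := mul_le_mul_of_nonneg_left h1 hWKpos.le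
      have h3 : c < s' + a * (u * K) + W * (k 0 * K) := hc2
      nlinarith
    obtain ⟨t, v, h1, h2, h3⟩ := hs' (s' + rem) (by omega) (by omega)
    refine ⟨t, Fin.cons (a + n 0 * j) v, ?_, h2, ?_⟩
    · rw [Fin.sum_univ_succ, Fin.sum_univ_succ]
      simp only [Fin.cons_zero, Fin.cons_succ]
      have h4 : c = s' + rem + (a + n 0 * j) * (u * K) := by
        have h5 : W * K * j = n 0 * (u * K) * j := by rw [hWK]
        linarith
      have h6 : t • y + ((a + n 0 * j) • (e 0 + (u * K) • y) + ∑ i : Fin p, v i • x' i) =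
          (t • y + ∑ i : Fin p, v i • x' i) + (a + n 0 * j) • (e 0 + (u * K) • y) := by
        abel
      rw [h6, h1, h4, ha1]
      have h7 : (κ 0 + n 0 * q + n 0 * j) • (e 0 + (u * K) • y) =
          κ 0 • e 0 + (q + j) • ((n 0 : ℤ) • e 0) +
            ((κ 0 + n 0 * q + n 0 * j) * (u * K)) • y := by
        module
      rw [h7, he 0, smul_zero, add_zero, add_smul (s' + rem)]
      abel
    · intro i
      refine Fin.cases ?_ (fun i => ?_) i
      · rw [Fin.cons_zero, abs_le]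
        have h4 : n 0 * j ≤ n 0 * ((k 0 : ℤ) - 1) := mul_le_mul_of_nonneg_left hj1 hn0.le
        have h5 : 0 ≤ n 0 * j := mul_nonneg hn0.le hj0
        have h6 : 2 * (a + n 0 * j) ≤ n 0 * k 0 := by
          have : 2 * (a + n 0 * j) < n 0 * k 0 + 1 := by nlinarith
          omega
        have h7 : -((n 0 : ℤ) * k 0) ≤ 2 * (a + n 0 * j) := by linarith
        have h8 : ((n 0 * k 0 : ℕ) : ℤ) = n 0 * k 0 := by push_cast; ring
        constructor <;> omega
      · rw [Fin.cons_succ]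
        exact h3 i

/-- `φ±(G, h) ≤ p + 2` for groups generated by `p` small elements and one more -/
theorem phiPM_le_large {p h W M : ℕ} (y : G) (e : Fin p → G) (n k : Fin p → ℕ)
    (hW : 0 < W) (hM : 0 < M) (hn : ∀ i, 0 < n i) (hk : ∀ i, 0 < k i)
    (he : ∀ i, (n i : ℤ) • e i = 0) (hy : (M : ℤ) • y = 0) (hd : ∀ i, n i ∣ W)
    (hgen : ∀ g : G, ∃ (t : ℤ) (v : Fin p → ℤ), t • y + ∑ i, v i • e i = g)
    (hMW : M ≤ W * ∏ i, k i) (hsum : W / 2 + ∑ i, n i * k i / 2 ≤ h) :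
    phiPM G h ≤ p + 2 := by
  obtain ⟨x, hx⟩ := fill y W hW p e n k hn hk he hd
  refine phiPM_le_of_family (Fin.cons y x) fun g => ?_
  obtain ⟨t, κ, rfl⟩ := hgen g
  obtain ⟨s, hs⟩ := hx κ
  have hM' : 0 < (M : ℤ) := by exact_mod_cast hM
  have e1 := Int.mul_ediv_add_emod (t - s) M
  have e2 := Int.emod_nonneg (t - s) (ne_of_gt hM')
  have e3 := Int.emod_lt_of_pos (t - s) hM'
  have hMW' : (M : ℤ) ≤ W * ∏ i, (k i : ℤ) := by exact_mod_cast hMW
  obtain ⟨t', v, h1, h2, h3⟩ := hs (s + (t - s) % M) (by omega) (by omega)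
  refine ⟨Fin.cons t' v, ?_, ?_⟩
  · rw [Fin.sum_univ_succ]
    simp only [Fin.cons_zero, Fin.cons_succ]
    rw [h1]
    have h4 : s + (t - s) % M = t - M * ((t - s) / M) := by linarith
    have h5 : (t - M * ((t - s) / M)) • y = t • y - ((t - s) / M) • ((M : ℤ) • y) := by
      module
    rw [h4, h5, hy, smul_zero, sub_zero]
  · rw [Fin.sum_univ_succ]
    simp only [Fin.cons_zero, Fin.cons_succ]
    have h4 : ∑ i, |v i| ≤ ∑ i, ((n i * k i / 2 : ℕ) : ℤ) := Finset.sum_le_sum fun i _ => h3 i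
    have h5 : (((W / 2 : ℕ) : ℤ) + ∑ i, ((n i * k i / 2 : ℕ) : ℤ)) ≤ (h : ℤ) := by
      exact_mod_cast hsum
    linarith

theorem phiPM_le_of_iso {p h W M : ℕ} {n k : Fin p → ℕ}
    (e : G ≃+ (∀ i, ZMod (n i)) × ZMod M) (hW : 0 < W) (hM : 0 < M) (hn : ∀ i, 0 < n i)
    (hk : ∀ i, 0 < k i) (hd : ∀ i, n i ∣ W) (hMW : M ≤ W * ∏ i, k i)
    (hsum : W / 2 + ∑ i, n i * k i / 2 ≤ h) : phiPM G h ≤ p + 2 := by
  classical
  refine phiPM_le_large (e.symm (0, 1)) (fun i => e.symm (Pi.single i 1, 0)) n k hW hM hn hk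
    (fun i => ?_) ?_ hd (fun g => ?_) hMW hsum
  · rw [← map_zsmul]
    have : (n i : ℤ) • ((Pi.single i 1, 0) : (∀ i, ZMod (n i)) × ZMod M) = 0 := by
      apply Prod.ext
      · rw [Prod.smul_fst, ← Pi.single_smul]
        have h1 : ((n i : ℤ) • (1 : ZMod (n i))) = 0 := by simp
        rw [h1, Pi.single_zero]
        rfl
      · simp
    rw [this, map_zero]
  · rw [← map_zsmul]
    have : (M : ℤ) • ((0, 1) : (∀ i, ZMod (n i)) × ZMod M) = 0 := by
      apply Prod.ext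
      · simp
      · simp
    rw [this, map_zero]
  · obtain ⟨t, ht⟩ := ZMod.intCast_surjective (e g).2
    choose v hv using fun i => ZMod.intCast_surjective ((e g).1 i)
    refine ⟨t, v, ?_⟩
    apply e.injective
    rw [map_add, map_zsmul, AddEquiv.apply_symm_apply, map_sum]
    simp only [map_zsmul, AddEquiv.apply_symm_apply]
    apply Prod.ext
    · rw [Prod.fst_add, Prod.smul_fst, smul_zero, zero_add, Prod.fst_sum]
      funext j
      rw [Finset.sum_apply, Finset.sum_eq_single j]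
      · simp [hv]
      · intro i _ hij
        have h1 : (Pi.single i 1 : ∀ i, ZMod (n i)) j = 0 := Pi.single_eq_of_ne (Ne.symm hij) _
        simp [h1]
      · intro h
        exact absurd (Finset.mem_univ j) h
    · rw [Prod.snd_add, Prod.smul_snd, Prod.snd_sum]
      simp [ht]

end Pool.Agent.Lib.MP_3a897b_coS
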