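import Pool.Agent.Lib.MP_3a897b_coS.Box

/-!
# Groups of rank two of order less than `(h + 1) ^ 2`
-/

namespace Pool.Agent.Lib.MP_3a897b_coS

open Pool.Agent.Lib.MP_3a897b_co

variable {G : Type*} [AddCommGroup G]

theorem cyclic_of_rank [Finite G] (hr : AddGroup.rank G ≤ 1) : IsAddCyclic G := by
  obtain ⟨S, hS, hcl⟩ := AddGroup.rank_spec G
  obtain ⟨x, hx⟩ : ∃ x : G, (S : Set G) ⊆ {x} := by
    have h1 : S.card = 0 ∨ S.card = 1 := by omega
    rcases h1 with h0 | h1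
    · rw [Finset.card_eq_zero] at h0
      subst h0
      exact ⟨0, by simp⟩
    · obtain ⟨x, rfl⟩ := Finset.card_eq_one.mp h1
      exact ⟨x, by simp⟩
  refine ⟨⟨x, fun g => ?_⟩⟩
  have h2 : g ∈ AddSubgroup.closure ({x} : Set G) := by
    have h1 := AddSubgroup.closure_mono hx
    rw [hcl] at h1
    exact h1 (AddSubgroup.mem_top g)
  obtain ⟨k, hk⟩ := AddSubgroup.mem_closure_singleton.mp h2
  exact ⟨k, hk⟩

theorem two_gen [Finite G] (hr : AddGroup.rank G ≤ 2) :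
    ∃ g1 g2 : G, ∀ g : G, ∃ s t : ℤ, s • g1 + t • g2 = g := by
  classical
  obtain ⟨S, hS, hcl⟩ := AddGroup.rank_spec G
  have key : ∃ g1 g2 : G, (S : Set G) ⊆ {g1, g2} := by
    have h1 : S.card = 0 ∨ S.card = 1 ∨ S.card = 2 := by omega
    rcases h1 with h0 | h1 | h2
    · rw [Finset.card_eq_zero] at h0
      subst h0
      exact ⟨0, 0, by simp⟩
    · obtain ⟨x, rfl⟩ := Finset.card_eq_one.mp h1
      exact ⟨x, x, by simp⟩
    · obtain ⟨x, y, _, rfl⟩ := Finset.card_eq_two.mp h2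
      exact ⟨x, y, by simp⟩
  obtain ⟨g1, g2, hsub⟩ := key
  refine ⟨g1, g2, fun g => ?_⟩
  have h2 : g ∈ AddSubgroup.closure ({g1, g2} : Set G) := by
    have h1 := AddSubgroup.closure_mono hsub
    rw [hcl] at h1
    exact h1 (AddSubgroup.mem_top g)
  exact AddSubgroup.mem_closure_pair.mp h2

/-- `G` is generated by `e0` and `e1` with `c0 • e0 = 0`, `c1 • e1 = 0` and `c0 c1 = |G|` -/
theorem split [Finite G] (hr : AddGroup.rank G ≤ 2) :
    ∃ (e0 e1 : G) (c0 c1 : ℕ), c0 * c1 = Nat.card G ∧ (c0 : ℤ) • e0 = 0 ∧ (c1 : ℤ) • e1 = 0 ∧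
      ∀ g : G, ∃ s t : ℤ, s • e0 + t • e1 = g := by
  obtain ⟨g1, g2, hgen⟩ := two_gen hr
  let f : (Fin 2 → ℤ) →ₗ[ℤ] G :=
    { toFun := fun v => v 0 • g1 + v 1 • g2
      map_add' := fun v w => by
        simp only [Pi.add_apply, add_smul]
        abel
      map_smul' := fun k v => by
        simp only [Pi.smul_apply, smul_eq_mul, mul_smul, RingHom.id_apply, smul_add] }
  have hf : Function.Surjective f := fun g => by
    obtain ⟨s, t, h⟩ := hgen g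
    exact ⟨![s, t], h⟩
  let E := LinearMap.quotKerEquivOfSurjective f hf
  have hfin : Finite ((Fin 2 → ℤ) ⧸ LinearMap.ker f) := Finite.of_equiv G E.toEquiv.symm
  have hrk := (Submodule.finiteQuotient_iff (LinearMap.ker f)).mp hfin
  let c : Fin 2 → ℕ := fun i =>
    (Submodule.smithNormalFormCoeffs (Pi.basisFun ℤ (Fin 2)) hrk i).natAbs
  let F : ((Fin 2 → ℤ) ⧸ LinearMap.ker f) ≃+ (∀ i, ZMod (c i)) :=
    Submodule.quotientEquivPiZMod (LinearMap.ker f) (Pi.basisFun ℤ (Fin 2)) hrk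
  let ψ : G ≃+ (∀ i, ZMod (c i)) := E.symm.toAddEquiv.trans F
  have hcard : c 0 * c 1 = Nat.card G := by
    rw [Nat.card_congr ψ.toEquiv, Nat.card_pi, Fin.prod_univ_two, Nat.card_zmod, Nat.card_zmod]
  have hz : ∀ i : Fin 2, (c i : ℤ) • ψ.symm (Pi.single i 1) = 0 := fun i => by
    rw [← map_zsmul, ← Pi.single_smul]
    have : ((c i : ℤ) • (1 : ZMod (c i))) = 0 := by simp
    rw [this, Pi.single_zero, map_zero]
  refine ⟨ψ.symm (Pi.single 0 1), ψ.symm (Pi.single 1 1), c 0, c 1, hcard, hz 0, hz 1,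
    fun g => ?_⟩
  obtain ⟨s, hs⟩ := ZMod.intCast_surjective (ψ g 0)
  obtain ⟨t, ht⟩ := ZMod.intCast_surjective (ψ g 1)
  refine ⟨s, t, ?_⟩
  apply ψ.injective
  rw [map_add, map_zsmul, map_zsmul, AddEquiv.apply_symm_apply, AddEquiv.apply_symm_apply]
  funext i
  fin_cases i
  · simp [← hs]
  · simp [← ht]

/-- `G` is generated by `P` and `Q` with `a • P = 0`, `a b • Q = 0` and `a ^ 2 b = |G|` -/
theorem invariant [Finite G] (hr : AddGroup.rank G ≤ 2) :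
    ∃ (P Q : G) (a b : ℕ), 1 ≤ a ∧ 1 ≤ b ∧ a ^ 2 * b = Nat.card G ∧ (a : ℤ) • P = 0 ∧
      ((a : ℤ) * b) • Q = 0 ∧ ∀ g : G, ∃ γ δ : ℤ, γ • P + δ • Q = g := by
  obtain ⟨e0, e1, c0, c1, hc, h0, h1, hgen⟩ := split hr
  have hpos : 0 < c0 * c1 := by rw [hc]; exact Nat.card_pos
  have hc0 : 0 < c0 := Nat.pos_of_mul_pos_right hpos
  have hc1 : 0 < c1 := Nat.pos_of_mul_pos_left hpos
  obtain ⟨d, p, q, hd, hcop, rfl, rfl⟩ := Nat.exists_coprime' (Nat.gcd_pos_of_pos_left c1 hc0)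
  have hp : 0 < p := Nat.pos_of_mul_pos_right hc0
  have hq : 0 < q := Nat.pos_of_mul_pos_right hc1
  obtain ⟨r, s, hrs⟩ : ∃ r s : ℤ, (q : ℤ) * s - p * r = 1 := by
    have hb : IsCoprime (p : ℤ) (q : ℤ) := Nat.isCoprime_iff_coprime.mpr hcop
    obtain ⟨u, v, huv⟩ := hb
    exact ⟨-u, v, by linarith⟩
  refine ⟨(-(p : ℤ)) • e0 + (q : ℤ) • e1, s • e0 + (-r) • e1, d, p * q, hd,
    Nat.mul_pos hp hq, by rw [← hc]; ring, ?_, ?_, fun g => ?_⟩
  · push_cast at h0 h1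
    have e : (d : ℤ) • ((-(p : ℤ)) • e0 + (q : ℤ) • e1) =
        -(((p : ℤ) * d) • e0) + ((q : ℤ) * d) • e1 := by module
    rw [e, h0, h1]
    simp
  · push_cast at h0 h1 ⊢
    have e : ((d : ℤ) * (p * q)) • (s • e0 + (-r) • e1) =
        (s * q) • (((p : ℤ) * d) • e0) - (r * p) • (((q : ℤ) * d) • e1) := by module
    rw [e, h0, h1]
    simp
  · obtain ⟨x, y, rfl⟩ := hgen g
    refine ⟨r * x + s * y, q * x + p * y, ?_⟩
    have e : (r * x + s * y) • ((-(p : ℤ)) • e0 + (q : ℤ) • e1) +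
        ((q : ℤ) * x + p * y) • (s • e0 + (-r) • e1) =
        (((q : ℤ) * s - p * r) * x) • e0 + (((q : ℤ) * s - p * r) * y) • e1 := by module
    rw [e, hrs, one_mul, one_mul]

theorem exists_w {b : ℕ} (hb : 1 ≤ b) : ∃ w : ℕ, w ^ 2 ≤ 4 * b ∧
    ((Odd w ∧ 2 * b ≤ w ^ 2) ∨ (Even w ∧ 2 * b + w ≤ w ^ 2 + 1) ∨
      (Even w ∧ Even b ∧ 2 * b ≤ w ^ 2 ∧ (4 ∣ w ∨ ¬ 4 ∣ b))) := by
  rcases Nat.lt_or_ge b 9 with h9 | h9
  · interval_cases b
    · exact ⟨2, by norm_num, Or.inr (Or.inl ⟨by decide, by norm_num⟩)⟩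
    · exact ⟨2, by norm_num, Or.inr (Or.inr ⟨by decide, by decide, by norm_num,
        Or.inr (by decide)⟩)⟩
    · exact ⟨3, by norm_num, Or.inl ⟨by decide, by norm_num⟩⟩
    · exact ⟨3, by norm_num, Or.inl ⟨by decide, by norm_num⟩⟩
    · exact ⟨4, by norm_num, Or.inr (Or.inl ⟨by decide, by norm_num⟩)⟩
    · exact ⟨4, by norm_num, Or.inr (Or.inl ⟨by decide, by norm_num⟩)⟩
    · exact ⟨5, by norm_num, Or.inl ⟨by decide, by norm_num⟩⟩
    · exact ⟨5, by norm_num, Or.inl ⟨by decide, by norm_num⟩⟩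
  · obtain ⟨s, h1, h2⟩ : ∃ s : ℕ, s ^ 2 ≤ 4 * b ∧ 4 * b < (s + 1) ^ 2 :=
      ⟨Nat.sqrt (4 * b), Nat.sqrt_le' _, Nat.lt_succ_sqrt' _⟩
    have hs : 6 ≤ s := by
      by_contra hc
      have h3 : s + 1 ≤ 6 := by omega
      have h4 : (s + 1) ^ 2 ≤ 6 ^ 2 := Nat.pow_le_pow_left h3 2
      omega
    rcases Nat.even_or_odd s with he | ho
    · obtain ⟨m, rfl⟩ : ∃ m, s = m + 6 := ⟨s - 6, by omega⟩
      refine ⟨m + 5, ?_, Or.inl ⟨?_, ?_⟩⟩
      · nlinarith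
      · obtain ⟨k, hk⟩ := he
        exact ⟨k - 1, by omega⟩
      · nlinarith
    · obtain ⟨m, rfl⟩ : ∃ m, s = m + 6 := ⟨s - 6, by omega⟩
      exact ⟨m + 6, h1, Or.inl ⟨ho, by nlinarith⟩⟩

theorem good_of_lt {h a b : ℕ} (hb : 1 ≤ b) (hlt : a ^ 2 * b < (h + 1) ^ 2) : Good h a b := by
  obtain ⟨w, h1, h2⟩ := exists_w hb
  refine ⟨w, ?_, h2⟩
  have h3 : (a * w) ^ 2 < (2 * h + 2) ^ 2 := by
    calc (a * w) ^ 2 = a ^ 2 * w ^ 2 := by ring
      _ ≤ a ^ 2 * (4 * b) := Nat.mul_le_mul_left _ h1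
      _ = 4 * (a ^ 2 * b) := by ring
      _ < 4 * (h + 1) ^ 2 := by omega
      _ = (2 * h + 2) ^ 2 := by ring
  have h4 := lt_of_pow_lt_pow_left₀ 2 (Nat.zero_le _) h3
  omega

theorem good_of_eq {h a b : ℕ} (ha : 1 ≤ a) (heq : a ^ 2 * b = 2 * h ^ 2) : Good h a b := by
  have h1 : a ^ 2 ∣ (2 * h) ^ 2 := ⟨2 * b, by
    calc (2 * h) ^ 2 = 2 * (2 * h ^ 2) := by ring
      _ = 2 * (a ^ 2 * b) := by rw [heq]
      _ = a ^ 2 * (2 * b) := by ring⟩
  obtain ⟨w, hw⟩ := (Nat.pow_dvd_pow_iff two_ne_zero).mp h1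
  have h2 : w ^ 2 = 2 * b := by
    have h3 : a ^ 2 * w ^ 2 = a ^ 2 * (2 * b) := by
      calc a ^ 2 * w ^ 2 = (a * w) ^ 2 := by ring
        _ = (2 * h) ^ 2 := by rw [hw]
        _ = 2 * (2 * h ^ 2) := by ring
        _ = 2 * (a ^ 2 * b) := by rw [heq]
        _ = a ^ 2 * (2 * b) := by ring
    exact Nat.eq_of_mul_eq_mul_left (by positivity) h3
  have h3 : 2 ∣ w := Nat.prime_two.dvd_of_dvd_pow (n := 2) ⟨b, h2⟩
  obtain ⟨m, rfl⟩ := h3
  have h4 : b = 2 * m ^ 2 := by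
    have : 2 * b = 4 * m ^ 2 := by rw [← h2]; ring
    omega
  refine ⟨2 * m, by omega, Or.inr (Or.inr ⟨⟨m, by ring⟩, ⟨m ^ 2, by omega⟩, by omega, ?_⟩)⟩
  rcases Nat.even_or_odd m with ⟨k, hk⟩ | ⟨k, hk⟩
  · left
    exact ⟨k, by omega⟩
  · right
    have h5 : m ^ 2 = 4 * (k ^ 2 + k) + 1 := by rw [hk]; ring
    omega

theorem rank_two [Finite G] {h : ℕ} (hh : 1 ≤ h) (hr : AddGroup.rank G = 2)
    (hn : Nat.card G < (h + 1) ^ 2 ∨ Nat.card G = 2 * h ^ 2) : phiPM G h = 3 := by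
  apply le_antisymm
  · obtain ⟨P, Q, a, b, ha, hb, hab, h1, h2, h3⟩ := invariant hr.le
    refine upper ha hb h1 h2 h3 ?_
    rw [← hab] at hn
    rcases hn with hn | hn
    · exact good_of_lt hb hn
    · exact good_of_eq ha hn
  · have := rank_lt_phiPM (G := G) h hh
    omega

theorem rank_two_prod [Finite G] {h a b : ℕ} (hh : 1 ≤ h) (ha : 2 ≤ a) (hb : 1 ≤ b)
    (e : G ≃+ ZMod a × ZMod (a * b)) (hg : Good h a b) : phiPM G h = 3 := by
  have hab : ((a : ℤ) * b) = ((a * b : ℕ) : ℤ) := by push_cast; rfl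
  apply le_antisymm
  · refine upper (P := e.symm (1, 0)) (Q := e.symm (0, 1)) (by omega) hb ?_ ?_ ?_ hg
    · rw [← map_zsmul]
      have : (a : ℤ) • ((1, 0) : ZMod a × ZMod (a * b)) = 0 := by
        ext <;> simp
      rw [this, map_zero]
    · rw [← map_zsmul, hab]
      have : ((a * b : ℕ) : ℤ) • ((0, 1) : ZMod a × ZMod (a * b)) = 0 := by
        apply Prod.ext
        · simp
        · rw [Prod.smul_snd, zsmul_one, Int.cast_natCast, ZMod.natCast_self]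
          rfl
      rw [this, map_zero]
    · intro g
      obtain ⟨s, hs⟩ := ZMod.intCast_surjective (e g).1
      obtain ⟨t, ht⟩ := ZMod.intCast_surjective (e g).2
      refine ⟨s, t, ?_⟩
      apply e.injective
      rw [map_add, map_zsmul, map_zsmul, AddEquiv.apply_symm_apply, AddEquiv.apply_symm_apply]
      apply Prod.ext
      · simp [← hs]
      · simp [← ht]
  · have h1 := rank_lt_phiPM (G := G) h hh
    by_contra hc
    have h2 : AddGroup.rank G ≤ 1 := by omega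
    have h3 := cyclic_of_rank h2
    obtain ⟨x, hx⟩ := h3.exists_zsmul_surjective
    have h4 : addOrderOf x = Nat.card G :=
      addOrderOf_eq_card_of_forall_mem_zmultiples (fun g => by
        obtain ⟨k, hk⟩ := hx g
        exact AddSubgroup.mem_zmultiples_iff.mpr ⟨k, hk⟩)
    have h5 : (a * b) • x = 0 := by
      apply e.injective
      rw [map_nsmul, map_zero]
      apply Prod.ext
      · rw [Prod.smul_fst, nsmul_eq_mul, Nat.cast_mul, ZMod.natCast_self]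
        simp
      · rw [Prod.smul_snd, nsmul_eq_mul, ZMod.natCast_self]
        simp
    have h6 := addOrderOf_dvd_of_nsmul_eq_zero h5
    rw [h4, Nat.card_congr e.toEquiv, Nat.card_prod, Nat.card_zmod, Nat.card_zmod] at h6
    have h7 : 0 < a * b := Nat.mul_pos (by omega) hb
    have h8 := Nat.le_of_dvd h7 h6
    nlinarith

end Pool.Agent.Lib.MP_3a897b_coS
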